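import Mathlib
import Pool.Agent.MP_30195a_an.Gr.Asm
import Pool.Agent.MP_30195a_an.Gr.CSys
import Pool.Agent.MP_30195a_an.Gr.EmbP
import Pool.Agent.MP_30195a_an.Gr.LPB
import Pool.Agent.MP_30195a_an.Gr.Lower
import Pool.Agent.MP_30195a_an.Gr.Prob
import Pool.Agent.MP_30195a_an.Gr.PWB
import Pool.Agent.MP_30195a_an.Gr.Tgt
import Pool.Agent.MP_30195a_an.Gr.Tree

/-!
# A logarithmic lower bound for WCGA with a greedy basis of `L_p`, `p > 2`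

For `2 < p < ∞` there is a normalized, unconditional and democratic basis of `L_p[0,1]` such that,
for all small weakness parameters, every function `Φ` for which the basis is `Φ`-greedy grows at
least like `(1 + log m) ^ ((p - 2) / (p - 1))`.
-/

set_option autoImplicit false

open MeasureTheory
open scoped ENNReal

namespace Pool.Agent.Results.MP_30195a_an.GreedyLower

open Pool.Agent.MP_30195a_an

theorem result (p : ℝ≥0∞) [Fact (1 ≤ p)] (hp2 : 2 < p) (hp : p ≠ ∞) :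
    ∃ Ψ : SchauderBasis ℝ (Lp ℝ p (volume.restrict (Set.Icc (0 : ℝ) 1))),
      (∀ k, ‖Ψ k‖ = 1) ∧ IsUnconditional Ψ ∧ IsDemocratic Ψ ∧
      ∃ t₀ : ℝ, 0 < t₀ ∧ t₀ ≤ 1 ∧ ∀ t : ℝ, 0 < t → t ≤ t₀ →
        ∀ Φ : ℝ → ℝ, (∀ x : ℝ, 1 ≤ x → 1 ≤ Φ x) → IsGreedy (Set.range Ψ) t Φ →
          ∃ κ : ℝ, 0 < κ ∧ ∀ m : ℕ, 1 ≤ m →
            κ * (1 + Real.log m) ^ ((p.toReal - 2) / (p.toReal - 1)) ≤ Φ m := by
  have hp1 : 1 < p := lt_trans (by norm_num) hp2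
  have hP : 2 < p.toReal := by simpa using (ENNReal.toReal_lt_toReal (by norm_num) hp).2 hp2
  have hP1 : 1 < p.toReal := by linarith
  obtain ⟨D, hD, hL⟩ := Gr.lpb hP
  obtain ⟨E⟩ := Gr.exists_emb hp2 hp
  obtain ⟨Ψ, h1, h2, h3, t₀, h4, h5, h6⟩ := Gr.lowerStmt hp2 hp
    (Gr.blockStmt hP1 (Gr.treeStmt hP hD hL (Gr.csStmt hP1)
      (Gr.coreStmt hP (Gr.pw1 hP) (Gr.pw2 hP) (Gr.endStates hP1 (by linarith) hL))))
    E (Gr.asmStmt hp1 hp) Gr.runStmt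
  refine ⟨Ψ, h1, h2, h3, t₀, h4, h5, fun t _ ht Φ hΦ hG => h6 Φ hΦ ?_⟩
  obtain ⟨C, hC⟩ := hG
  refine ⟨C, fun f₀ m hm φ f hR => hC f₀ m hm φ f
    ⟨hR.start, hR.mem, fun k hk => ?_, hR.approx_mem, hR.approx_best⟩⟩
  obtain ⟨F, hF, h7⟩ := hR.select k hk
  refine ⟨F, hF, le_trans (mul_le_mul_of_nonneg_right ht (Real.sSup_nonneg ?_)) h7⟩
  rintro _ ⟨g, -, rfl⟩
  exact abs_nonneg _

end Pool.Agent.Results.MP_30195a_an.GreedyLower
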