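import Mathlib
import Pool.Agent.MP_30195a_an.LpLower

/-!
# The least admissible function for unconditional bases of `L_p` and WCGA

For `1 < p < ∞` with conjugate exponent `p'`, the function `x ^ (max (p' / 2) (2 / p') - 1)` is
admissible, every admissible function dominates a positive multiple of it at the positive integers,
and constants are admissible exactly when `p = 2`.
-/

set_option autoImplicit false

open MeasureTheory
open scoped ENNReal

namespace Pool.Agent.Results.MP_30195a_an.OptimalPhi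

open Pool.Agent.MP_30195a_an

theorem result (p : ℝ≥0∞) [Fact (1 ≤ p)] (hp1 : 1 < p) (hp : p ≠ ∞) :
    Admissible p
      (fun x => x ^ (max (p.toReal.conjExponent / 2) (2 / p.toReal.conjExponent) - 1)) ∧
    (∀ Φ : ℝ → ℝ, (∀ x : ℝ, 1 ≤ x → 1 ≤ Φ x) → Admissible p Φ →
      ∃ κ : ℝ, 0 < κ ∧ ∀ m : ℕ, 1 ≤ m →
        κ * (m : ℝ) ^ (max (p.toReal.conjExponent / 2) (2 / p.toReal.conjExponent) - 1) ≤ Φ m) ∧
    (∀ c : ℝ, 1 ≤ c → (Admissible p (fun _ => c) ↔ p = 2)) := by
  have h1 := admissible_upper hp1 hp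
  have h2 : ∀ Φ : ℝ → ℝ, (∀ x : ℝ, 1 ≤ x → 1 ≤ Φ x) → Admissible p Φ →
      ∃ κ : ℝ, 0 < κ ∧ ∀ m : ℕ, 1 ≤ m →
        κ * (m : ℝ) ^ (max (p.toReal.conjExponent / 2) (2 / p.toReal.conjExponent) - 1)
          ≤ Φ m := by
    intro Φ hΦ hA
    obtain ⟨Ψ, hn, hU, hr⟩ := exists_extremal_basis hp1 hp
    obtain ⟨c, hc, hG⟩ := hA Ψ hn hU 1 one_pos le_rfl
    rw [hr] at hG
    obtain ⟨κ, hκ, h⟩ := lower_psi hp1 hp zero_le_one le_rfl (Φ := fun x => c * Φ x) (fun N hN =>
      one_le_mul_of_one_le_of_one_le hc (hΦ N (by exact_mod_cast hN))) hG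
    refine ⟨κ / c, by positivity, fun m hm => ?_⟩
    rw [div_mul_eq_mul_div, div_le_iff₀' (by linarith)]
    exact h m hm
  refine ⟨h1, h2, fun c hc => ⟨fun hA => ?_, fun h => ?_⟩⟩
  · obtain ⟨κ, hκ, h⟩ := h2 _ (fun _ _ => hc) hA
    have hP := one_lt_toReal hp1 hp
    have hx : 0 < p.toReal.conjExponent := div_pos (by linarith) (by linarith)
    have e1 : max (p.toReal.conjExponent / 2) (2 / p.toReal.conjExponent) - 1 ≤ 0 := by
      by_contra hcon
      push Not at hcon
      have t1 := ((tendsto_rpow_atTop hcon).comp tendsto_natCast_atTop_atTop).const_mul_atTop hκ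
      obtain ⟨m, hm1, hm2⟩ := ((t1.eventually_gt_atTop c).and (Filter.eventually_ge_atTop 1)).exists
      exact absurd (h m hm2) (not_le.2 hm1)
    have e2 : p.toReal.conjExponent / 2 ≤ 1 := (le_max_left _ _).trans (by linarith)
    have e3 : 2 / p.toReal.conjExponent ≤ 1 := (le_max_right _ _).trans (by linarith)
    rw [div_le_one hx] at e3
    have e4 : p.toReal / (p.toReal - 1) = 2 := le_antisymm (by
      change p.toReal.conjExponent ≤ 2
      linarith) e3
    rw [div_eq_iff (by linarith)] at e4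
    have e5 : p.toReal = 2 := by linarith
    rw [← ENNReal.ofReal_toReal hp, e5]
    simp
  · subst h
    intro Ψ hn hU t ht ht1
    obtain ⟨c', hc', C, hC⟩ := h1 Ψ hn hU t ht ht1
    refine ⟨c', hc', C, fun f₀ m hm φ f hR => le_trans ?_ (hC f₀ m hm φ f hR)⟩
    obtain ⟨idx, R⟩ := hR.idxRun (fun i => (hn i).le) ht.le
    refine R.antitone (Nat.floor_mono ?_)
    have e : max ((2 : ℝ≥0∞).toReal / ((2 : ℝ≥0∞).toReal - 1) / 2)
        (2 / ((2 : ℝ≥0∞).toReal / ((2 : ℝ≥0∞).toReal - 1))) - 1 = 0 := by norm_num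
    simp only [e, Real.rpow_zero]
    gcongr

end Pool.Agent.Results.MP_30195a_an.OptimalPhi
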